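import Pool.Agent.E8helper24.HP.TateQ

/-!
# 51 percent of the Tate classes on one explicit power of `X` decide the Tate conjecture for all
# powers, over fields of any characteristic

Let `X` be any smooth projective variety over a field `k` which is finitely generated over its prime
field (geometric cohomology; Tate classes are the classes on which a finite index subgroup of the
Galois group acts by the power of the cyclotomic character; cycles have rational coefficients), `d` its
dimension and `b` the dimension of its whole `ℓ`-adic cohomology. If `k` is infinite, the cohomology
of `X` is assumed to be semisimple (`Gal.Semisimple`; a theorem of Zarhin and Faltings for abelian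
varieties). If `k` is finite, nothing is assumed: then the Galois group is (topologically) generated by
the Frobenius element, and its subgroup generated by the Frobenius element, which has the same Tate
classes, is cyclic (`IsCyclic`). Let

  `M = 2 b! ((2 d + 1) b!) ^ (b - 1)`,
  `m ≥ b³ M² log (2 b M + 1)`,  `C = (16 m b ^ (4 m + 2)) ^ (b² + 2)`.

Then either the cohomology of `X` is semisimple and for all powers of `X` the Tate conjecture is true
and homological and numerical equivalence agree (over finite fields this is the conjecture on the orders
of the poles of the zeta functions of all powers of `X` and of their ranks of cycles), or **for all `n`**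
the rank of the group of the cycles on `X ^ (n + 1)` modulo numerical equivalence is at most

  `1 / 2 + C log (n + 2) / (n + 1)`

times the number of linearly independent Tate classes. The constant `C` depends only on `b` and `d`.

So, for example over a finite field, semisimplicity, the Tate conjecture and the equality of homological
and numerical equivalence for all powers of `X` follow if on **one** power `X ^ (n + 1)` with
`C log (n + 2) / (n + 1) < 1 / 100` the rank of the cycles modulo numerical equivalence is more than 51
percent of the number of Tate classes (or of the sum of the orders of the poles of its zeta function at
the integers, over a large extension of `k`, which is at least the number of Tate classes).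

The proof uses the theorem for one power (`OnePowerAnyFieldH1`): if the rank of the cycles on `X ^ (2 m)`
modulo numerical equivalence were the number of Tate classes, the cohomology of `X` would be semisimple
(over a finite field by a dimension count: a subquotient `F / E` of the cohomology of `X × X` on which
a power of the Frobenius acts by the power of `q` has at most the dimension of the kernel on `F`), and
the Tate conjecture would be true for all powers. Otherwise there is a class on `X ^ (2 m)` which is not
algebraic, or a numerically trivial one, and the count of the composition factors of the space of the
Tate classes as a module over the algebraic correspondences on `X ^ (2 m)` is made explicit: for each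
single `n` either the rank of the intersection form on `X ^ n` is exponentially smaller than the number
of algebraic classes, or the log-convexity of the ranks determines them up to a factor
`1 - O(log n / n)` with an explicit constant.
-/

open CategoryTheory AlgebraicGeometry

universe u

namespace Pool.Agent.Results.MP_0fca13_ag.FiftyOnePercentAnyFieldH24

open Pool.Agent.H914 Pool.Agent.H914.VarClass
open Pool.Agent.E8helper1.TP (Gal hdim)
open Pool.Agent.E8helper1.TPQ (Frobenii exponent HomNum)
open Pool.Agent.E8helper24.HP (AtMostHalf constant)
open Pool.Agent.Y133.Half (cycRank)
open Pool.Agent.Y129 (pw)

variable {k : Type u} [Field k] {𝒱 : VarClass k} {ops : CycleOps 𝒱}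
  {W : WeilCohomology.{u, 0} ops} {X : 𝒱.Obj}

/-- **51 percent of the Tate classes on one explicit power decide the Tate conjecture for all
powers**, in every characteristic, unconditionally over finite fields. Here `G.TateConj n` is the Tate
conjecture for the product `pw X n` of `n + 1` copies of `X`, `G.tateDim n` the dimension of the space
of its Tate classes, and `cycRank ops (pw X n)` the rank of its cycles modulo numerical equivalence. -/
theorem result {ℓ : ℕ} [Fact ℓ.Prime] (φ : W.K ≃+* ℚ_[ℓ]) (hX : 0 < hdim W X)
    (G : Gal W X) (hG : Frobenii G φ) (hss : IsCyclic G.Γ ∨ G.Semisimple) (M : ℕ)
    (hM : M = exponent (hdim W X) X.dim) (m : ℕ)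
    (hm : (hdim W X : ℝ) ^ 3 * (M : ℝ) ^ 2 * Real.log (2 * hdim W X * M + 1) ≤ m) :
    (G.Semisimple ∧ (∀ n, G.TateConj n) ∧ ∀ n, HomNum W (pw X n)) ∨
      AtMostHalf (fun n => cycRank ops (pw X n)) G.tateDim (constant (hdim W X) m) :=
  Pool.Agent.E8helper24.HP.tate_halfQ φ hX G hG hss M hM m hm

end Pool.Agent.Results.MP_0fca13_ag.FiftyOnePercentAnyFieldH24
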