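import Pool.Agent.E8helper3.TG.Backward

/-!
# Tate classes over finite fields are generated by classes on products of curves, surfaces, ... with
# abelian varieties, and these by classes of codimension two

Let `p` be a prime number and `Ω` an algebraically closed field of characteristic zero, for instance
an algebraic closure of `ℚ_ℓ`. For each Weil number `W` (of weight one, for any power of `p`) let
`B_W` be the simple abelian variety with this Weil number (Honda, Tate), over the corresponding
finite field. Let `X_i` be arbitrary smooth projective varieties over finite fields of characteristic
`p`, and `H^{w_i}(X_i)` cohomology groups (of arbitrary degrees `w_i > 0`) with coefficients in `Ω`.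
The eigenvalues of Frobenius on them are Weil numbers of weight `w_i` (Deligne). We consider the
tensor products of these groups and the groups `H^1(B_W)`, with any number of factors; by the Künneth
formula the cohomology of any product of the varieties `X_i` and `B_W` is the sum of such tensor
products. The elements of the tensor product are the multilinear forms on the dual spaces (`Form`).
The (generalised) Tate classes are the (generalised) eigenvectors of the Frobenius over some finite
field, with `q` elements, with the eigenvalue `q ^ r`, in the tensor products of degree `2 r`.

The theorem says that all of them are obtained by linear combinations, external products and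
contractions of two factors `H^1(B_W)` by means of the Weil pairing from the Tate classes

* (i) in `H^{w_i}(X_i) ⊗ H^1(B) ⊗ ⋯ ⊗ H^1(B)` (`w_i` factors `H^1(B)`), one variety `X_i` and one simple
  abelian variety `B = B_W`. For `w_i = 1` they are classes of divisors, by Tate's theorem;
* (ii) in `H^1(B_1) ⊗ H^1(B_2) ⊗ H^1(B_3) ⊗ H^1(E)`, codimension two, with three simple abelian
  varieties `B_1`, `B_2`, `B_3` and one fixed supersingular `E` (`W₀`, with Weil number `√q`, for
  instance the supersingular elliptic curve over the field with `p ^ 2` elements with the Frobenius
  `p`).

Moreover, if `L` is any subfield of `Ω` which contains powers of the Frobenius eigenvalues on the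
given groups (for instance a CM field), then only those abelian varieties are needed some power of
whose Weil number lies in `L`. There are no assumptions on the fields, on the slopes, on the
multiplicities of the eigenvalues or on the dimensions. (`L = Ω` is allowed.)

Contraction is cup product with an algebraic class and push-forward: for an abelian variety `B` with
polarization, the inverse of the Weil pairing in `H^{2g-1}(B) ⊗ H^{2g-1}(B)` is a polynomial in classes of
divisors. So the operations preserve algebraic classes, and the theorem has the following
consequences.

* The Tate conjecture for abelian varieties over finite fields, in all codimensions, follows from the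
  one in codimension two for the abelian varieties `B_1 × B_2 × B_3 × E`; for products of any number of
  curves it follows from the Tate conjecture for the fourfolds `C_1 × C_2 × C_3 × E` (curves `C_i`),
  as every `H^1(B)` is a direct summand of the `H^1` of a curve. The classes in (ii) are Weil
  classes of rank four for CM fields.
* The (strong) Tate conjecture for all products of surfaces and curves, in all codimensions, follows
  from the one in codimension two for the fourfolds `S × C_1 × C_2` (`S` a surface, `C_1`, `C_2`
  curves). More generally, it follows for all products of varieties `X_i` of dimension at most
  `d` (`d ≥ 2`) from the one for the products of `2 d`-dimensional varieties `X_i × C^d` in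
  codimension `d` and for products of four curves in codimension two.

The proof. A root of a Weil number is a Weil number. So an eigenvalue on `H^w(X)` is the `w`-th power
of an eigenvalue on `H^1(B)`, for some `B`, and classes in `H^w(X)` are contractions of classes (i)
with classes in `H^1(B) ⊗ ⋯ ⊗ H^1(B)`. For abelian varieties: let `u`, `v` be Weil numbers, `c = √q`,
`a = √(u c)`, `b = √(v c)` and `m = a b / c = √(u v)`. The Tate classes with the eigenvalues
`(u, c, q / a, q / a)`, `(v, c, q / b, q / b)` and twice `(a, b, q / m, c)` give, after contractions,
the Tate classes with the eigenvalues `(u, v, q / m, q / m)`: a pair can be replaced by two copies of its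
geometric mean. Hence `2 ^ r` Weil numbers can be replaced by `2 ^ r` copies of their mean, and this
is `c`, up to a root of unity, if the product is a power of `c`. Pairs `(c, c)` may be added and
removed.
-/

namespace Pool.Agent.Results.MP_0fca13_ag.GeneratedInCodimTwoH3

open Module Pool.Agent.E8helper3.TG

/-- **The generalised Tate classes are generated by those in `H^w(X) ⊗ H^1(B) ⊗ ⋯ ⊗ H^1(B)` (`w` factors
`H^1(B)`) and those in `H^1(B_1) ⊗ H^1(B_2) ⊗ H^1(B_3) ⊗ H^1(E)`.** -/
theorem result {p : ℕ} (hp : p.Prime) {Ω : Type} [Field Ω] [IsAlgClosed Ω] [CharZero Ω]
    {L : Subfield Ω} {I : Type} (H : I → Piece p Ω) (A : WeilNumber p L → I)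
    (E : ∀ W, (H (A W)).V →ₗ[Ω] (H (A W)).V →ₗ[Ω] Ω)
    (hA : ∀ W, IsSimpleAV W (H (A W)) (E W))
    (W₀ : WeilNumber p L) (hW₀ : W₀.β ^ 2 = (p : Ω) ^ W₀.m)
    {κ : Type} [Finite κ] (t : κ → I)
    (hL : ∀ k x, (H (t k)).F.HasEigenvalue x → HasPowerIn L x)
    (heven : Even (∑ᶠ k, (H (t k)).w)) (f : Form H t) :
    IsTate H t f ↔ Generated H A E W₀ t f :=
  ⟨forward hp.ne_zero hA hW₀ t hL heven f, backward hp.ne_zero hA⟩

end Pool.Agent.Results.MP_0fca13_ag.GeneratedInCodimTwoH3
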