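import Pool.Agent.E8helper1.TPS.Conv
import Pool.Agent.E8helper1.TS.AvgP
import Pool.Agent.E8helper77.TS.Soc

/-!
# One power decides the Tate conjecture for all powers, over finitely generated fields of any
# characteristic

Let `X` be a smooth projective variety over a field which is finitely generated over its prime field,
for example a finite field (geometric cohomology; Tate classes are the classes on which a finite index
subgroup of the Galois group acts by the power of the cyclotomic character; cycles have rational
coefficients), `d` its dimension and `b` the dimension of its whole `ℓ`-adic cohomology. Let

  `M = 2 b! ((2 d + 1) b!) ^ (b - 1)`.

Assume that for **one** power `X ^ (2 m)` with `m ≥ M`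

* either the strong form of the Tate conjecture is true (`StrongTate`; over a finite field: the orders of
  the poles of the zeta functions over all finite extensions are the ranks of the groups of the algebraic
  cycles modulo numerical equivalence; here it is only assumed, that for all `j` the subquotients of the
  cohomology of degree `2 j`, on which a finite index subgroup acts by the `j`-th power of the cyclotomic
  character, have dimension at most this rank),
* or the Tate conjecture is true (every Tate class is a combination of algebraic classes), and the
  `ℓ`-adic cohomology of `X` is semisimple (`Gal.Semisimple`; this is a theorem of Tate, Zarhin and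
  Faltings for abelian varieties).

Then the cohomology of `X` is semisimple, and for **all** powers of `X` homological and numerical
equivalence are equal, and the space of the algebraic classes with rational coefficients is
finite-dimensional and its tensor product with `ℚ_ℓ` embeds into the cohomology (`HomNum`). Moreover,
the number of linearly independent Tate classes on `X ^ n`, divided by the number of linearly
independent algebraic classes, is at most `(2 b M) ^ (2 b²)` for all even `n` and tends to a natural
number `N` with the same bound, which is `1` if and only if the Tate conjecture is true for all powers of
`X`; and `N = 1` if `m ≥ b³ M² log (2 b M + 1)`.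

Besides the formal properties of the cohomology the hypotheses describe the properties of the
cohomology of a smooth projective variety over such a field (`Frobenii`): the Galois representation
is integral, the Frobenius elements at places with residue field `𝔽_q` (and their powers) are dense in
the Galois group (Chebotarev), and they have integral characteristic polynomials with roots of absolute
value `q ^ (i / 2)` (Deligne), the slopes of which are multiples of `1 / b_i!` (crystalline cohomology:
Katz-Messing, Dieudonne-Manin).

In positive characteristic there is no Hodge theory: no hermitian form is known for which the algebraic
classes are closed under adjoints. The proof: by the strong form for `X × X` every Galois stable simple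
subspace of the cohomology of `X` is the image of an algebraic projector, as the pairing between the
cycle classes which factor over it has maximal rank; so all stable subspaces have stable complements.
The endomorphisms (with complex coefficients) which annihilate all Tate classes form a reductive Lie
algebra, with semisimple part `L`. By the theorem of Kempf and Ness there is a sequence `g_k` of
matrices which commute with the Galois endomorphisms such that `g_k L g_k⁻¹` converges to a Lie
algebra of the same dimension with a minimal basis, which is closed under adjoints; by the Cartan
criterion and the Casimir operator the dimensions of the spaces of invariant tensors do not change in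
the limit. So the limit of the conjugates of the spaces of the algebraic classes is contained in the
space of the invariants of a compact group, is equal to it in degree `2 M`, and this is sufficient: the
elements of the compact group of the limit of the algebraic classes near the identity fix all limits of
Tate classes (for the centre: for a Frobenius element `γ` and a place `P | p` the operator with
eigenvalue `v_P (α² / q ^ i)` on the eigenspace of `α` annihilates the Tate classes and has bounded
integral eigenvalues, by the bound for the slopes), a packing argument in `U(b)` bounds the index, and
the comparison of the integrals of `|tr g| ^ (2 m)` over the two groups shows that they are equal if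
`m ≥ b³ M² log (2 b M + 1)`.
-/

open CategoryTheory AlgebraicGeometry

universe u

namespace Pool.Agent.Results.MP_0fca13_ag.OnePowerAnyFieldH1

open Pool.Agent.H914 Pool.Agent.H914.VarClass
open Pool.Agent.Y129 (pw)
open Pool.Agent.E8helper1.TP (Gal hdim algDim Quot)
open Pool.Agent.E8helper1.TPQ (Frobenii HomNum exponent bound)
open Pool.Agent.E8helper1.TPS (StrongTate)

variable {k : Type u} [Field k] {𝒱 : VarClass k} {ops : CycleOps 𝒱}
  {W : WeilCohomology.{u, 0} ops} {X : 𝒱.Obj}

/-- **The Tate conjecture for one power implies it for all powers.** Here `G.TateConj n` is the Tate
conjecture for the product `pw X n` of `n + 1` copies of `X`, and `StrongTate G n` its strong form. -/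
theorem result {ℓ : ℕ} [Fact ℓ.Prime] (φ : W.K ≃+* ℚ_[ℓ]) (hX : 0 < hdim W X)
    (G : Gal W X) (hG : Frobenii G φ) (M : ℕ)
    (hM : M = exponent (hdim W X) X.dim) (m : ℕ) (hm : M ≤ m)
    (hT : StrongTate G (2 * m - 1) ∨ G.Semisimple ∧ G.TateConj (2 * m - 1)) :
    G.Semisimple ∧ (∀ n, HomNum W (pw X n)) ∧ ∃ N : ℕ, 1 ≤ N ∧ N ≤ bound (hdim W X) M ∧
      Quot G.tateDim (algDim W X) (bound (hdim W X) M) N ∧ (N = 1 ↔ ∀ n, G.TateConj n) ∧
      ((hdim W X : ℝ) ^ 3 * (M : ℝ) ^ 2 * Real.log (2 * hdim W X * M + 1) ≤ m → N = 1) :=
  Pool.Agent.E8helper1.TPS.tate_lawS Pool.Agent.E8helper77.TS.t_SOC
    Pool.Agent.E8helper1.TS.t_AVG φ hX G hG M hM m hm hT

end Pool.Agent.Results.MP_0fca13_ag.OnePowerAnyFieldH1
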