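import Pool.Agent.E8helper24.PR.Law

/-!
# The Tate conjecture at different primes, the Hodge conjecture and the Mumford-Tate conjecture

Let `k` be a field which is finitely generated over `ℚ`, embedded in the field of complex numbers,
and `X` a smooth projective variety over `k`. We consider the *realisations* `R`: the Hodge
realisation, with the Hodge classes in `H(Y(ℂ), ℚ)`, and for each prime number `ℓ` the `ℓ`-adic
realisation, with the Tate classes in `ℚ_ℓ ⊗ H(Y(ℂ), ℚ) = H_ℓ(Y)`, the classes which are fixed by a
subgroup of finite index of the Galois group (with Tate twists). A rational class is called a
*common class* if it is a Hodge class and a Tate class for ALL prime numbers `ℓ` (for instance the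
classes of algebraic cycles and the motivated classes are common classes).

**Theorem.** There is an index `N ∈ {1, 2, ..., ∞}`, which depends only on `X`, and for each
realisation `R` there is `E_R ∈ {1, ∞}` such that for `n → ∞`

  `dim (R-classes on X^n) / dim (common classes on X^n)            → E_R`,
  `dim (R-classes on X^n) / rank (cycles on X^n modulo num. equiv.) → E_R * N`,
  `dim (common classes on X^n) / rank (cycles on X^n modulo num. equiv.) → N`,

and such a limit is `1` if and only if ALL `R`-classes on ALL powers of `X` are linear combinations of
common classes (of classes of algebraic cycles; all common classes are classes of algebraic cycles).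
The convergence is uniform: for each natural number `r` which is at most the limit there is a
constant `C` such that the share of the common (algebraic) classes among the `R`-classes is at most
`1 / r + C log (n + 2) / (n + 1)` on `X^(n+1) × Z × Z` for all `n` and ALL varieties `Z`.

Let `k` be so large that all classes of cycles on the powers of `X` over the algebraic closure are
combinations of classes of cycles over `k` (a finite extension which depends on `X` suffices, see
`exists_fixAll` in `QF/Orb.lean`). Some consequences:

* If the Tate conjecture is true for all powers of `X` at ONE prime number `ℓ`, or the Hodge
  conjecture is true for all powers of `X(ℂ)`, then for every other prime number `ℓ'` (and for the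
  Hodge classes) either all classes on all powers are algebraic, or 0 percent of them, uniformly on
  `X^n × Z × Z`. (The independence of `ℓ` of the Tate conjecture is open in characteristic zero.)
* If for infinitely many `n` one percent of the Hodge classes on `X^n` is algebraic and for
  infinitely many `n` one percent of the Tate classes on `X^n` for one prime number `ℓ` is algebraic,
  then the Hodge classes on all powers of `X` are Tate classes for all prime numbers, and all Tate
  classes for `ℓ` are `ℚ_ℓ`-linear combinations of Hodge classes: the Mumford-Tate conjecture (in
  the form with invariants) is true for `X` and `ℓ`.
* If the indices of the algebraic classes are finite for two realisations, they are equal (to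
  `N`), and the spaces of the classes of the two realisations agree after an extension of the
  coefficients.

The theorem is formal in the actions: `A i` is an arbitrary family of actions of groups `Γ i`, after
an extension of the coefficients to fields `L i` which can be embedded in `ℂ`.

The proof. Let the common classes be more than 0 percent of the `R`-classes. Then the `R`-classes
on all powers of `X` are generated by those on one power `P` under correspondences which are common
classes. The linear relations between finitely many operators on `H(P) ⊗ ℂ` which fix the common
classes and respect products, pull-backs and push-forwards (elements of the Galois group for any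
prime number and any embedding `ℚ_ℓ → ℂ`, powers of the operator `2 ^ (p - q)`) are inherited by the
`R`-classes on all powers, in particular by the external powers `v ⊗ ... ⊗ v`. Since the external
powers of different classes are linearly independent, each `R`-class and each of its conjugates
under the automorphisms of `ℂ` has a finite orbit under these operators; so it is of type `(p, p)` and
a Tate class for all prime numbers, and by descent it is a combination of common classes. The
common classes satisfy the Hodge-Riemann relations, so that they are nondegenerate and the general
index theorem can be applied to the algebraic classes.
-/

open CategoryTheory AlgebraicGeometry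

universe u

namespace Pool.Agent.Results.MP_0fca13_ag.PrimesAgreeH24

open Pool.Agent.H914 Pool.Agent.H914.VarClass Pool.Agent.H914.WeilCohomology
open Pool.Agent.Y121.AHS (HodgeTheory IsHodge)
open Pool.Agent.E8helper24.PR

/-- **The index laws for Hodge classes and for Tate classes at all primes.** -/
theorem result {k : Type u} [Field k] {𝒱 : VarClass k} {ops : CycleOps 𝒱} (T : HodgeTheory ops)
    {ι : Type} {Γ : ι → Type} [∀ i, Group (Γ i)] {L : ι → Type} [∀ i, Field (L i)]
    [∀ i, Algebra T.W.K (L i)] (A : ∀ i, GalAct (Γ i) T.W (L i))
    (hL : ∀ i, Nonempty (L i →+* ℂ)) (X : 𝒱.Obj) [Nontrivial (T.W.H X)] :
    Nondeg (IsHT A) ∧ ∃ N : ℕ∞, Law (IsAlg T.W) (IsHT A) X N ∧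
      (∃ E : ℕ∞, (E = 1 ∨ E = ⊤) ∧ Law (IsHT A) (IsHodge T) X E ∧
        Law (IsAlg T.W) (IsHodge T) X (E * N)) ∧
      ∀ i, ∃ E : ℕ∞, (E = 1 ∨ E = ⊤) ∧ TateLaw (A i) (IsHT A) X E ∧
        TateLaw (A i) (IsAlg T.W) X (E * N) :=
  index_law A hL X

end Pool.Agent.Results.MP_0fca13_ag.PrimesAgreeH24
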